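import Pool.Agent.N102.FL.LStm

/-!
Project FL2 (helper102): the system of equations at a valuation.
-/

set_option autoImplicit false

universe u

open Pool.Agent.W418.LU2 IsLocalRing

namespace Pool.Agent.N301.FL

open Pool.Agent.N102.FL

section core

variable {k K : Type u} [Field k] [Field K] [Algebra k K] (V : ValuationSubring K)
  (hkV : ∀ a : k, algebraMap k K a ∈ V) {J : Type} [Fintype J] {Y : J → K}

lemma mo_sub {F : Type u} [Field F] {x : J → F} (hx : ∀ i, x i ≠ 0) (δ γ : J → ℤ) :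
    mo x (δ - γ) = mo x δ * (mo x γ)⁻¹ := by
  rw [sub_eq_add_neg, mo_add hx, mo_neg]

lemma mo_ne {F : Type u} [Field F] {x : J → F} (hx : ∀ i, x i ≠ 0) (δ : J → ℤ) : mo x δ ≠ 0 :=
  Finset.prod_ne_zero_iff.2 fun i _ => zpow_ne_zero _ (hx i)

/-- the residues of the terms of an equation -/
lemma core (hY : ∀ j, Y j ≠ 0) (P : (J → ℤ) →₀ k) (l : J → ℤ)
    (hl : ∀ m ∈ P.support, ∀ m' ∈ P.support, (∑ j, l j * m j ≤ ∑ j, l j * m' j ↔
      V.valuation (mo Y m') ≤ V.valuation (mo Y m))) (z : J → ResidueField V)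
    (hz0 : ∀ j, z j ≠ 0)
    (hz : ∀ (m : J → ℤ) (hm : mo Y m ∈ V), V.valuation (mo Y m) = 1 →
      residue V ⟨mo Y m, hm⟩ = mo z m) (m0 : J → ℤ) (h0 : m0 ∈ face P l) :
    ∃ M : (J → ℤ) → V, (∀ m ∈ P.support, (M m : K) = mo Y (m - m0)) ∧
      ∀ n : (J → ℤ) → ℤ, residue V (∑ m ∈ P.support, (n m : V) *
        ((algebraMap k K).codRestrict V hkV (P m) * M m)) = (mo z m0)⁻¹ *
          ∑ m ∈ face P l, residue V ((algebraMap k K).codRestrict V hkV (P m)) *
            (n m : ResidueField V) * mo z m := by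
  classical
  have hm0 : m0 ∈ P.support ∧ ∀ m' ∈ P.support, ∑ j, l j * m0 j ≤ ∑ j, l j * m' j := by
    simpa only [face, Finset.mem_filter] using h0
  have hv0 : V.valuation (mo Y m0) ≠ 0 := (Valuation.ne_zero_iff _).2 (mo_ne hY m0)
  have hval : ∀ m, V.valuation (mo Y (m - m0)) = V.valuation (mo Y m) *
      (V.valuation (mo Y m0))⁻¹ := by
    intro m
    rw [mo_sub hY, map_mul, map_inv₀]
  have hle : ∀ m ∈ P.support, V.valuation (mo Y (m - m0)) ≤ 1 := by
    intro m hm
    have h1 := (hl m0 hm0.1 m hm).1 (hm0.2 m hm)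
    rw [hval]
    exact mul_inv_le_one_of_le₀ h1 zero_le
  have hmem : ∀ m ∈ P.support, mo Y (m - m0) ∈ V := by
    intro m hm
    exact (V.valuation_le_one_iff _).1 (hle m hm)
  have hres : ∀ m (hm : m ∈ P.support), residue V ⟨mo Y (m - m0), hmem m hm⟩ =
      if m ∈ face P l then mo z m * (mo z m0)⁻¹ else 0 := by
    intro m hm
    by_cases hf : m ∈ face P l
    · rw [if_pos hf, ← mo_sub hz0]
      have hf' : m ∈ P.support ∧ ∀ m' ∈ P.support, ∑ j, l j * m j ≤ ∑ j, l j * m' j := by
        simpa only [face, Finset.mem_filter] using hf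
      have h1 := (hl m0 hm0.1 m hm).1 (hm0.2 m hm)
      have h2 := (hl m hm m0 hm0.1).1 (hf'.2 m0 hm0.1)
      refine hz _ _ ?_
      rw [hval, le_antisymm h1 h2, mul_inv_cancel₀ hv0]
    · rw [if_neg hf, residue_eq_zero_iff, ValuationSubring.valuation_lt_one_iff]
      have h3 : ¬ (∑ j, l j * m j ≤ ∑ j, l j * m0 j) := by
        intro h
        apply hf
        simp only [face, Finset.mem_filter]
        exact ⟨hm, fun m' hm' => h.trans (hm0.2 m' hm')⟩
      have h4 : V.valuation (mo Y m) < V.valuation (mo Y m0) :=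
        not_le.1 fun h => h3 ((hl m hm m0 hm0.1).2 h)
      change V.valuation (mo Y (m - m0)) < 1
      rw [hval]
      exact (mul_inv_lt_iff₀ (zero_lt_iff.2 hv0)).2 (by rwa [one_mul])
  refine ⟨fun m => if h : m ∈ P.support then ⟨mo Y (m - m0), hmem m h⟩ else 0, fun m hm => ?_,
    fun n => ?_⟩
  · simp only [hm, dif_pos]
  · rw [map_sum, Finset.mul_sum]
    have hsub : face P l ⊆ P.support := by
      unfold face
      exact Finset.filter_subset _ _
    rw [← Finset.sum_subset hsub]
    · refine Finset.sum_congr rfl fun m hm => ?_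
      have hm' := hsub hm
      beta_reduce
      rw [map_mul, map_mul, map_intCast, dif_pos hm', hres m hm', if_pos hm]
      ring
    · intro m hm hf
      beta_reduce
      rw [map_mul, map_mul, dif_pos hm, hres m hm, if_neg hf, mul_zero, mul_zero]

end core

/-- **SYS.** -/
theorem t_sys : S_WT.{u} → S_PT.{u} → S_SYS.{u} := by
  intro hWT hPT k E K _ _ _ _ _ _ _ V hkV H Θ _ _ v y hv hy σ _ G hG c hc
  classical
  obtain ⟨Y, hYdef⟩ : ∃ Y : H ⊕ Θ → K, Y = Sum.elim (fun b => algebraMap E K (v b)) y := ⟨_, rfl⟩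
  have hY0 : ∀ j, Y j ≠ 0 := by
    intro j
    rw [hYdef]
    cases j with
    | inl b => exact (map_ne_zero (algebraMap E K)).2 (hv b)
    | inr θ => exact hy θ
  have hσ : Fintype σ := Fintype.ofFinite σ
  obtain ⟨l, hl⟩ := hWT K V (H ⊕ Θ) Y hY0 (Finset.univ.biUnion fun s => (G s).support)
  obtain ⟨z, hz0, hz⟩ := hPT K V (H ⊕ Θ) Y hY0
  have hlG : ∀ s, ∀ m ∈ (G s).support, ∀ m' ∈ (G s).support,
      (∑ j, l j * m j ≤ ∑ j, l j * m' j ↔ V.valuation (mo Y m') ≤ V.valuation (mo Y m)) :=
    fun s m hm m' hm' => hl m (Finset.mem_biUnion.2 ⟨s, Finset.mem_univ _, hm⟩) m'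
      (Finset.mem_biUnion.2 ⟨s, Finset.mem_univ _, hm'⟩)
  obtain ⟨fk, hfk⟩ : ∃ fk : k →+* V, fk = (algebraMap k K).codRestrict V hkV := ⟨_, rfl⟩
  have hfkc : ∀ a, (fk a : K) = algebraMap k K a := by
    intro a
    rw [hfk]
    rfl
  let _ : Algebra k (ResidueField V) := ((residue V).comp fk).toAlgebra
  have halg : ∀ a : k, algebraMap k (ResidueField V) a = residue V (fk a) := fun a => rfl
  have hcore := fun s m0 h0 => core V hkV hY0 (G s) l (hlG s) z hz0 hz m0 h0
  rw [← hfk] at hcore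
  -- the sum of the terms is zero
  have hsum0 : ∀ s (m0 : H ⊕ Θ → ℤ), ∑ m ∈ (G s).support, algebraMap k K (G s m) *
      mo Y (m - m0) = 0 := by
    intro s m0
    have h1 := hG s
    rw [← hYdef] at h1
    have h2 : ∑ m ∈ (G s).support, algebraMap k K (G s m) * mo Y (m - m0) =
        lv (G s) Y * (mo Y m0)⁻¹ := by
      unfold lv
      rw [Finset.sum_mul]
      refine Finset.sum_congr rfl fun m _ => ?_
      rw [mo_sub hY0, Algebra.smul_def, mul_assoc]
      rfl
    rw [h2, h1, zero_mul]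
  have hvl : ∀ s, vl (G s) l z = 0 := by
    intro s
    rcases (face (G s) l).eq_empty_or_nonempty with h | ⟨m0, h0⟩
    · unfold vl
      rw [h, Finset.sum_empty]
    · obtain ⟨M, hM1, hM2⟩ := hcore s m0 h0
      have h1 := hM2 fun _ => 1
      have h2 : ∑ m ∈ (G s).support, (((1 : ℤ) : V) * (fk (G s m) * M m)) = 0 := by
        apply Subtype.ext
        push_cast
        rw [← hsum0 s m0]
        refine Finset.sum_congr rfl fun m hm => ?_
        rw [hM1 m hm, hfkc, one_mul]
      rw [h2, map_zero] at h1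
      have h3 := (mul_eq_zero.1 h1.symm).resolve_left (inv_ne_zero (mo_ne hz0 m0))
      rw [← h3]
      unfold vl
      refine Finset.sum_congr rfl fun m _ => ?_
      rw [Int.cast_one, mul_one, halg]
      rfl
  obtain ⟨t, a, ha0, ha1⟩ := hc (ResidueField V) l z hz0 hvl
  have hne : ∀ i : Fin c, (face (G (t i)) l).Nonempty := by
    intro i
    have h1 := ha1 i i
    rw [if_pos rfl] at h1
    refine Finset.nonempty_of_sum_ne_zero (f := fun m => algebraMap k (ResidueField V) (G (t i) m) *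
      (∑ j, (m j : ResidueField V) * a i j) * ∏ j, z j ^ m j) ?_
    intro h2
    exact one_ne_zero (h1.symm.trans h2)
  choose m0 hm0 using hne
  choose M hM1 hM2 using fun i => hcore (t i) (m0 i) (hm0 i)
  have hsupp : ∀ i, m0 i ∈ (G (t i)).support := by
    intro i
    have := hm0 i
    simp only [face, Finset.mem_filter] at this
    exact this.1
  let 𝒮 : Sys E Θ :=
    { κ := Fin c
      ι := fun i => {m // m ∈ (G (t i)).support}
      c := fun i m => algebraMap k E (G (t i) m.1) *
        ∏ b, v b ^ (m.1 (Sum.inl b) - m0 i (Sum.inl b))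
      m := fun i m θ => m.1 (Sum.inr θ) - m0 i (Sum.inr θ)
      st := fun i => ⟨m0 i, hsupp i⟩
      rk := fun _ => 0 }
  have hterm : ∀ (i : Fin c) (m : {m // m ∈ (G (t i)).support}),
      algebraMap E K (𝒮.c i m) * mo y (𝒮.m i m) =
        algebraMap k K (G (t i) m.1) * mo Y (m.1 - m0 i) := by
    intro i m
    change algebraMap E K (algebraMap k E (G (t i) m.1) *
        ∏ b, v b ^ (m.1 (Sum.inl b) - m0 i (Sum.inl b))) *
        ∏ θ, y θ ^ (m.1 (Sum.inr θ) - m0 i (Sum.inr θ)) =
      algebraMap k K (G (t i) m.1) * ∏ j, Y j ^ (m.1 j - m0 i j)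
    rw [Fintype.prod_sum_type, map_mul, map_prod, ← IsScalarTower.algebraMap_apply, hYdef]
    simp only [Sum.elim_inl, Sum.elim_inr, map_zpow₀]
    ring
  have htermV : ∀ (i : Fin c) (m : {m // m ∈ (G (t i)).support}),
      algebraMap E K (𝒮.c i m) * mo y (𝒮.m i m) = ((fk (G (t i) m.1) * M i m.1 : V) : K) := by
    intro i m
    rw [hterm]
    push_cast
    rw [hfkc, hM1 i m.1 m.2]
  refine ⟨𝒮, Fintype.card_fin c, ⟨fun i m => ?_, fun i => ?_, ?_⟩, fun i m => ?_⟩
  · rw [htermV i m]
    exact (fk (G (t i) m.1) * M i m.1 : V).2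
  · change ∑ m : {m // m ∈ (G (t i)).support}, algebraMap E K (𝒮.c i m) * mo y (𝒮.m i m) = 0
    simp only [hterm]
    rw [Finset.sum_coe_sort (G (t i)).support
      (fun m => algebraMap k K (G (t i) m) * mo Y (m - m0 i))]
    exact hsum0 (t i) (m0 i)
  · -- the dual vectors
    choose A hA using fun (i : Fin c) (θ : Θ) =>
      (residue_surjective (R := V)) (mo z (m0 i) * a i (Sum.inr θ))
    refine ⟨fun i θ => (A i θ : K), fun i θ => (A i θ).2, fun i j => ?_⟩
    suffices hs : ∀ r : K, r = (if i = j then 1 else 0) →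
        V.valuation ((∑ θ, (A i θ : K) * ∑ m : {m // m ∈ (G (t j)).support},
      (𝒮.m j m θ : K) * (algebraMap E K (𝒮.c j m) * mo y (𝒮.m j m))) - r) < 1 from
      hs _ (by by_cases hij : i = j <;> simp [hij])
    intro r hr
    rw [hr]
    have h1 : ((∑ θ, (A i θ : K) * ∑ m : {m // m ∈ (G (t j)).support},
        (𝒮.m j m θ : K) * (algebraMap E K (𝒮.c j m) * mo y (𝒮.m j m))) - if i = j then 1 else 0) =
        (((∑ θ, A i θ * ∑ m ∈ (G (t j)).support, ((m (Sum.inr θ) - m0 j (Sum.inr θ) : ℤ) : V) *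
          (fk (G (t j) m) * M j m)) - if i = j then 1 else 0 : V) : K) := by
      have e1 : ∀ θ, (∑ m : {m // m ∈ (G (t j)).support},
          (𝒮.m j m θ : K) * (algebraMap E K (𝒮.c j m) * mo y (𝒮.m j m))) =
          ((∑ m ∈ (G (t j)).support, ((m (Sum.inr θ) - m0 j (Sum.inr θ) : ℤ) : V) *
          (fk (G (t j) m) * M j m) : V) : K) := by
        intro θ
        rw [← Finset.sum_coe_sort (G (t j)).support
          (fun m => ((m (Sum.inr θ) - m0 j (Sum.inr θ) : ℤ) : V) * (fk (G (t j) m) * M j m))]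
        push_cast
        refine Finset.sum_congr rfl fun m _ => ?_
        rw [htermV j m]
        change ((m.1 (Sum.inr θ) - m0 j (Sum.inr θ) : ℤ) : K) * _ = _
        push_cast
        rfl
      simp only [e1]
      by_cases hij : i = j
      · rw [if_pos hij, if_pos hij]
        push_cast
        rfl
      · rw [if_neg hij, if_neg hij]
        push_cast
        rfl
    rw [h1, ← ValuationSubring.valuation_lt_one_iff, ← residue_eq_zero_iff, map_sub, map_sum]
    have h2 : ∀ θ, residue V (∑ m ∈ (G (t j)).support,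
        ((m (Sum.inr θ) - m0 j (Sum.inr θ) : ℤ) : V) * (fk (G (t j) m) * M j m)) =
        (mo z (m0 j))⁻¹ * ∑ m ∈ face (G (t j)) l, algebraMap k (ResidueField V) (G (t j) m) *
          (m (Sum.inr θ) : ResidueField V) * mo z m := by
      intro θ
      rw [hM2 j fun m => m (Sum.inr θ) - m0 j (Sum.inr θ)]
      congr 1
      have h3 := hvl (t j)
      unfold vl at h3
      have h4 : ∑ m ∈ face (G (t j)) l, residue V (fk (G (t j) m)) *
          ((m (Sum.inr θ) - m0 j (Sum.inr θ) : ℤ) : ResidueField V) * mo z m =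
          ∑ m ∈ face (G (t j)) l, algebraMap k (ResidueField V) (G (t j) m) *
          (m (Sum.inr θ) : ResidueField V) * mo z m - (m0 j (Sum.inr θ) : ResidueField V) *
          ∑ m ∈ face (G (t j)) l, algebraMap k (ResidueField V) (G (t j) m) *
            ∏ j, z j ^ m j := by
        rw [Finset.mul_sum, ← Finset.sum_sub_distrib]
        refine Finset.sum_congr rfl fun m _ => ?_
        rw [halg]
        change _ = _ - _ * (_ * mo z m)
        push_cast
        ring
      rw [h4, h3, mul_zero, sub_zero]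
    have h5 : ∑ θ, residue V (A i θ * ∑ m ∈ (G (t j)).support,
        ((m (Sum.inr θ) - m0 j (Sum.inr θ) : ℤ) : V) * (fk (G (t j) m) * M j m)) =
        mo z (m0 i) * (mo z (m0 j))⁻¹ * der (G (t j)) l z (a i) := by
      simp only [map_mul, h2, hA]
      unfold der
      simp only [Finset.mul_sum]
      rw [Finset.sum_comm]
      refine Finset.sum_congr rfl fun m _ => ?_
      rw [Fintype.sum_sum_type]
      simp only [ha0, mul_zero, Finset.sum_const_zero, zero_add]
      rw [Finset.sum_mul, Finset.mul_sum]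
      refine Finset.sum_congr rfl fun θ _ => ?_
      change _ = mo z (m0 i) * (mo z (m0 j))⁻¹ * (algebraMap k (ResidueField V) (G (t j) m) *
        ((m (Sum.inr θ) : ResidueField V) * a i (Sum.inr θ)) * mo z m)
      ring
    rw [h5, ha1 i j]
    by_cases hij : i = j
    · subst hij
      rw [if_pos rfl, if_pos rfl, mul_one, mul_inv_cancel₀ (mo_ne hz0 _), map_one, sub_self]
    · rw [if_neg hij, if_neg hij, mul_zero, map_zero, sub_zero]
  · refine mul_ne_zero ((map_ne_zero (algebraMap k E)).2 (Finsupp.mem_support_iff.1 m.2)) ?_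
    exact Finset.prod_ne_zero_iff.2 fun b _ => zpow_ne_zero _ (hv b)

end Pool.Agent.N301.FL
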